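import Pool.Agent.W200.MR.Stm

/-!
Project S18410 (helper200), piece t_EX2.
-/

set_option autoImplicit false

open Finset Filter Topology MeasureTheory

namespace Pool.Agent.W357.MR

open Pool.Agent.W200.MR

lemma pw_add (s t : ℝ) (n : ℕ) : pw (s + t) n = pw s n * pw t n := by
  unfold pw
  rw [← Complex.exp_add]
  congr 1
  push_cast
  ring

lemma norm_pw (s : ℝ) (n : ℕ) : ‖pw s n‖ = 1 := by
  unfold pw
  exact Complex.norm_exp_ofReal_mul_I _

lemma pw_cont (n : ℕ) : Continuous fun t : ℝ => pw t n := by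
  unfold pw
  fun_prop

theorem t_EX2 : S_WT → S_PAIR → S_EX2 := by
  classical
  rintro hWT ⟨C, hC, hP⟩
  refine ⟨C, hC, fun T A m Y s U hT hm hU e he => ?_⟩
  set E : ℝ := ∑ N ∈ Icc T (2 * Y), 1 / (N : ℝ) ^ 3 with hEd
  have hE : 0 ≤ E := Finset.sum_nonneg fun N _ => by positivity
  set e' : ℝ := e / ((A : ℝ) ^ 2 * E + 1) with he'd
  have hden : 0 < (A : ℝ) ^ 2 * E + 1 := by positivity
  have he' : 0 < e' := div_pos he hden
  set B : ℕ → ℕ → ℕ → Finset ℕ := fun a b N => (AP a b N).filter (fun n => ¬ Smooth T n) with hB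
  set J : ℝ → ℕ → ℕ → ℕ → ℝ := fun S a b N => ∫ t in S..(2 * S),
      ‖∑ u ∈ U, pw t u‖ ^ 2 * ‖∑ n ∈ B a b N, pw s n * pw t n‖ ^ 2 with hJ
  have h1 : ∀ᶠ S : ℝ in atTop, ∀ a ∈ Icc 1 A, ∀ b ∈ range a, ∀ N ∈ Icc T (2 * Y),
      (1 / S) * J S a b N ≤ (PA T N + e') * U.card := by
    simp only [Filter.eventually_all_finset]
    intro a _ b _ N _
    refine (hWT T m U hm hU e' he').2.2 N (B a b N) (fun n => pw s n) ?_ ?_ ?_
    · intro n hn
      exact (Finset.mem_filter.1 (Finset.mem_filter.1 hn).1).1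
    · intro n hn
      exact (Finset.mem_filter.1 hn).2
    · intro n
      exact (norm_pw s n).le
  have hcont : ∀ a b N, Continuous fun t : ℝ =>
      ‖∑ u ∈ U, pw t u‖ ^ 2 * ‖∑ n ∈ B a b N, pw s n * pw t n‖ ^ 2 := by
    intro a b N
    refine Continuous.mul ?_ ?_
    · exact ((continuous_finsetSum _ fun u _ => pw_cont u).norm).pow 2
    · exact ((continuous_finsetSum _ fun n _ => continuous_const.mul (pw_cont n)).norm).pow 2
  have h2 : ∀ S : ℝ, ∫ t in S..(2 * S), ‖∑ u ∈ U, pw t u‖ ^ 2 * Q1 T A Y s t =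
      ∑ a ∈ Icc 1 A, ∑ b ∈ range a, ∑ N ∈ Icc T (2 * Y), J S a b N / (N : ℝ) ^ 3 := by
    intro S
    have e1 : (fun t : ℝ => ‖∑ u ∈ U, pw t u‖ ^ 2 * Q1 T A Y s t) =
        fun t => ∑ a ∈ Icc 1 A, ∑ b ∈ range a, ∑ N ∈ Icc T (2 * Y),
          (‖∑ u ∈ U, pw t u‖ ^ 2 * ‖∑ n ∈ B a b N, pw s n * pw t n‖ ^ 2) / (N : ℝ) ^ 3 := by
      funext t
      unfold Q1 SR
      rw [Finset.mul_sum]
      refine Finset.sum_congr rfl fun a _ => ?_
      rw [Finset.mul_sum]
      refine Finset.sum_congr rfl fun b _ => ?_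
      rw [Finset.mul_sum]
      refine Finset.sum_congr rfl fun N _ => ?_
      have e2 : ∑ n ∈ (AP a b N).filter (fun n => ¬ Smooth T n), pw (s + t) n =
          ∑ n ∈ B a b N, pw s n * pw t n := by
        refine Finset.sum_congr ?_ fun n _ => pw_add s t n
        rw [hB]
      rw [e2]
      ring
    have hi : ∀ a b N, IntervalIntegrable (fun t : ℝ =>
        (‖∑ u ∈ U, pw t u‖ ^ 2 * ‖∑ n ∈ B a b N, pw s n * pw t n‖ ^ 2) / (N : ℝ) ^ 3)
        volume S (2 * S) := fun a b N => ((hcont a b N).div_const _).intervalIntegrable _ _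
    rw [e1, intervalIntegral.integral_finsetSum]
    · refine Finset.sum_congr rfl fun a _ => ?_
      rw [intervalIntegral.integral_finsetSum]
      · refine Finset.sum_congr rfl fun b _ => ?_
        rw [intervalIntegral.integral_finsetSum]
        · refine Finset.sum_congr rfl fun N _ => ?_
          rw [intervalIntegral.integral_div]
        · exact fun N _ => hi a b N
      · intro b _
        exact (continuous_finsetSum _ fun N _ => (hcont a b N).div_const _).intervalIntegrable _ _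
    · intro a _
      exact (continuous_finsetSum _ fun b _ =>
        continuous_finsetSum _ fun N _ => (hcont a b N).div_const _).intervalIntegrable _ _
  filter_upwards [h1] with S hS
  rw [h2 S]
  have hA : ((∑ a ∈ Icc 1 A, a : ℕ) : ℝ) ≤ (A : ℝ) ^ 2 := by
    have : ∑ a ∈ Icc 1 A, a ≤ A ^ 2 := by
      calc ∑ a ∈ Icc 1 A, a ≤ ∑ a ∈ Icc 1 A, A :=
            Finset.sum_le_sum fun a ha => (Finset.mem_Icc.1 ha).2
        _ = A ^ 2 := by rw [Finset.sum_const, Nat.card_Icc, smul_eq_mul]; simp [sq]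
    exact_mod_cast this
  set D : ℝ := ∑ N ∈ Icc T (2 * Y), (PA T N : ℝ) / (N : ℝ) ^ 3 with hD
  have hD1 : D ≤ C / Real.sqrt T := hP T (2 * Y) hT
  have hD0 : 0 ≤ D := Finset.sum_nonneg fun N _ => by positivity
  have hU0 : (0 : ℝ) ≤ U.card := Nat.cast_nonneg _
  calc (1 / S) * ∑ a ∈ Icc 1 A, ∑ b ∈ range a, ∑ N ∈ Icc T (2 * Y), J S a b N / (N : ℝ) ^ 3
      = ∑ a ∈ Icc 1 A, ∑ b ∈ range a, ∑ N ∈ Icc T (2 * Y),
          ((1 / S) * J S a b N) * (1 / (N : ℝ) ^ 3) := by
        simp only [Finset.mul_sum]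
        refine Finset.sum_congr rfl fun a _ => Finset.sum_congr rfl fun b _ =>
          Finset.sum_congr rfl fun N _ => ?_
        ring
    _ ≤ ∑ a ∈ Icc 1 A, ∑ b ∈ range a, ∑ N ∈ Icc T (2 * Y),
          ((PA T N + e') * U.card) * (1 / (N : ℝ) ^ 3) := by
        refine Finset.sum_le_sum fun a ha => Finset.sum_le_sum fun b hb =>
          Finset.sum_le_sum fun N hN => ?_
        exact mul_le_mul_of_nonneg_right (hS a ha b hb N hN) (by positivity)
    _ = ∑ a ∈ Icc 1 A, ∑ b ∈ range a, (D + e' * E) * U.card := by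
        refine Finset.sum_congr rfl fun a _ => Finset.sum_congr rfl fun b _ => ?_
        rw [hD, hEd, Finset.mul_sum, ← Finset.sum_add_distrib, Finset.sum_mul]
        refine Finset.sum_congr rfl fun N _ => ?_
        ring
    _ = ((∑ a ∈ Icc 1 A, a : ℕ) : ℝ) * ((D + e' * E) * U.card) := by
        simp only [Finset.sum_const, Finset.card_range, nsmul_eq_mul]
        rw [← Finset.sum_mul]
        push_cast
        ring
    _ ≤ (A : ℝ) ^ 2 * ((D + e' * E) * U.card) :=
        mul_le_mul_of_nonneg_right hA (by positivity)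
    _ = ((A : ℝ) ^ 2 * D + (A : ℝ) ^ 2 * E * e') * U.card := by ring
    _ ≤ (C * (A : ℝ) ^ 2 / Real.sqrt T + e) * U.card := by
        refine mul_le_mul_of_nonneg_right (add_le_add ?_ ?_) hU0
        · calc (A : ℝ) ^ 2 * D ≤ (A : ℝ) ^ 2 * (C / Real.sqrt T) :=
                mul_le_mul_of_nonneg_left hD1 (by positivity)
            _ = C * (A : ℝ) ^ 2 / Real.sqrt T := by ring
        · rw [he'd, mul_div_assoc', div_le_iff₀ hden]
          nlinarith

end Pool.Agent.W357.MR
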